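import Mathlib
import Pool.Agent.H917R2.Tr.Stubs

/-!
Elementary properties of `mu` (task T_mu of helper917).
-/

open scoped ComplexOrder InnerProductSpace Topology
open Filter

noncomputable section

namespace H917R2.Tr

open H759R2.Kad H710R2.DP

namespace T_muaux

variable {H : Type} [NormedAddCommGroup H] [InnerProductSpace ℂ H] [CompleteSpace H]

theorem norm_apply_sq (x : H →L[ℂ] H) (v : H) : ‖x v‖ ^ 2 = (⟪v, (star x * x) v⟫_ℂ).re := by
  rw [mul_apply_eq_comp, ContinuousLinearMap.star_eq_adjoint,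
    ContinuousLinearMap.adjoint_inner_right, ← inner_self_eq_norm_sq (𝕜 := ℂ)]
  rfl

theorem bound (x : H →L[ℂ] H) (v : H) : ‖x v‖ ^ 2 ≤ ‖x‖ ^ 2 * ‖v‖ ^ 2 := by
  rw [← mul_pow]
  exact pow_le_pow_left₀ (norm_nonneg _) (x.le_opNorm v) 2

theorem summ {ι : Type} {ξ : ι → H} (hξ : Sq ξ) (x : H →L[ℂ] H) :
    Summable fun k => ‖x (ξ k)‖ ^ 2 :=
  Summable.of_nonneg_of_le (fun k => by positivity) (fun k => bound x (ξ k))
    (hξ.mul_left (‖x‖ ^ 2))

theorem split {n : ℕ} (w : Fin n → (H →L[ℂ] H)) (v : H) (h : (∑ i, w i * star (w i)) v = v) :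
    ‖v‖ ^ 2 = ∑ i, ‖star (w i) v‖ ^ 2 := by
  have h1 : ‖v‖ ^ 2 = (⟪v, (∑ i, w i * star (w i)) v⟫_ℂ).re := by
    rw [h, ← inner_self_eq_norm_sq (𝕜 := ℂ)]
    rfl
  rw [h1, _root_.sum_apply, inner_sum, Complex.re_sum]
  refine Finset.sum_congr rfl fun i _ => ?_
  rw [norm_apply_sq, star_star]

end T_muaux

open T_muaux in
theorem p_T_mu : H917R2.Tr.T_mu := by
  intro H _ _ _ ι ξ hξ
  refine ⟨summ hξ, fun x => tsum_nonneg fun k => by positivity, ?_, ?_, ?_, ?_⟩
  · intro x
    unfold mu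
    rw [← tsum_mul_left]
    refine (summ hξ x).tsum_le_tsum (fun k => ?_) ((summ hξ 1).mul_left _)
    simpa using bound x (ξ k)
  · intro x y hxy
    unfold mu
    refine tsum_congr fun k => ?_
    rw [norm_apply_sq, norm_apply_sq, hxy]
  · intro n w x hx
    unfold mu
    rw [← Summable.tsum_finsetSum fun i _ => summ hξ (star (w i) * x)]
    refine tsum_congr fun k => ?_
    have h1 : (∑ i, w i * star (w i)) (x (ξ k)) = x (ξ k) := by
      conv_rhs => rw [← hx]
      rw [mul_apply_eq_comp]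
    rw [split w _ h1]
    refine Finset.sum_congr rfl fun i _ => ?_
    rw [mul_apply_eq_comp]
  · intro x y
    unfold mu
    rw [← (summ hξ (x + y)).tsum_add (summ hξ (x - y)), ← tsum_mul_left, ← tsum_mul_left,
      ← ((summ hξ x).mul_left 2).tsum_add ((summ hξ y).mul_left 2)]
    refine tsum_congr fun k => ?_
    have h1 := parallelogram_law_with_norm ℂ (x (ξ k)) (y (ξ k))
    rw [add_apply, sub_apply]
    nlinarith [h1]

end H917R2.Tr
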